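import Pool.Agent.Lib.P56507.UpperFin
import Pool.Agent.Lib.P56507.Lower
import Pool.Agent.Lib.P56507.TwoStar
import Pool.Agent.Lib.P56507.Param
import Pool.Agent.Lib.P56507.Trans

/-!
The exact value of `ex_Z(n, k, r)` for all `n ≥ k ≥ 2` and all `r`, with extremal weightings.
-/

open Finset Pool.Agent.Lib.P56507

namespace Pool.Agent.Results.MP_56507e_co.ExactAll

/-- `K = ⌊(k - 1) / q⌋`, `q` the denominator of `m`. -/
def KK (k : ℕ) (m : ℚ) : ℕ := (k - 1) / m.den

/-- `s = r - R m k` (it is nonnegative). -/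
def ss (k : ℕ) (r : ℤ) (m : ℚ) : ℕ := (r - R m k).toNat

/-- `c = K - s`. -/
def cc (k : ℕ) (r : ℤ) (m : ℚ) : ℕ := KK k m - ss k r m

/-- `b = ⌊K / c⌋`. -/
def bb (k : ℕ) (r : ℤ) (m : ℚ) : ℕ := KK k m / cc k r m

/-- `ρ = K - c b`. -/
def rr (k : ℕ) (r : ℤ) (m : ℚ) : ℕ := KK k m % cc k r m

/-- `N - ⌈(N - ρ) / b⌉`, `N = ⌈n / q⌉`. -/
def gain1 (n k : ℕ) (r : ℤ) (m : ℚ) : ℤ :=
  Nq m.den n - (((Nq m.den n - rr k r m + bb k r m - 1) / bb k r m : ℕ) : ℤ)

/-- `min(N, 2 s + 2) - c - 1`. -/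
def gain2 (n k : ℕ) (r : ℤ) (m : ℚ) : ℤ :=
  ((min (Nq m.den n) (2 * ss k r m + 2) : ℕ) : ℤ) - cc k r m - 1

/-- The value `∑_{i < n} ⌈m i⌉ + max(N - ⌈(N - ρ) / b⌉, min(N, 2 s + 2) - c - 1)`. -/
def value (n k : ℕ) (r : ℤ) (m : ℚ) : ℤ := R m n + max (gain1 n k r m) (gain2 n k r m)

/-- The extremal weighting. -/
def extremal (n k : ℕ) (r : ℤ) (m : ℚ) (i j : Fin n) : ℤ :=
  if gain2 n k r m ≤ gain1 n k r m then ext m n (bb k r m) (rr k r m) i j
  else ext2 m n (ss k r m) (cc k r m) i j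

theorem par_greatest {k : ℕ} (hk : 2 ≤ k) {r : ℤ} {m : ℚ}
    (h : IsGreatest {x : ℚ | R x k ≤ r} m) :
    Par k m.den (ss k r m) (KK k m) (cc k r m) (bb k r m) (rr k r m) ∧
      R m k + (ss k r m : ℤ) = r ∧ ss k r m < KK k m := by
  obtain ⟨h1, h2, h3⟩ := greatest_par hk h
  have h4 : (ss k r m : ℤ) = r - R m k := Int.toNat_of_nonneg (by omega)
  have h5 : ss k r m < (k - 1) / m.den := by
    zify
    push_cast at h3 ⊢
    omega
  exact ⟨par_of m.den_pos (by omega) h5, by omega, h5⟩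

theorem result :
    (∀ k : ℕ, 2 ≤ k → ∀ r : ℤ, ∃ m : ℚ, IsGreatest {x : ℚ | R x k ≤ r} m ∧
      m.den < k ∧ R m k + ss k r m = r ∧ ss k r m < KK k m) ∧
    (∀ n k : ℕ, 2 ≤ k → k ≤ n → ∀ (r : ℤ) (m : ℚ), IsGreatest {x : ℚ | R x k ≤ r} m →
      ((∀ S : Finset (Fin n), S.card = k → weight (extremal n k r m) S ≤ r) ∧
        weight (extremal n k r m) univ = value n k r m) ∧
      IsGreatest {t : ℤ | ∃ w : Fin n → Fin n → ℤ,
        (∀ S : Finset (Fin n), S.card = k → weight w S ≤ r) ∧ weight w univ = t}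
        (value n k r m)) := by
  have hlow : ∀ n k : ℕ, 2 ≤ k → k ≤ n → ∀ (r : ℤ) (m : ℚ),
      IsGreatest {x : ℚ | R x k ≤ r} m →
      (∀ S : Finset (Fin n), S.card = k → weight (extremal n k r m) S ≤ r) ∧
        weight (extremal n k r m) univ = value n k r m := by
    intro n k hk hn r m hm
    obtain ⟨P, hr, hs⟩ := par_greatest hk hm
    by_cases hcase : gain2 n k r m ≤ gain1 n k r m
    · have hE : extremal n k r m =
          fun i j : Fin n => ext m n (bb k r m) (rr k r m) (i : ℕ) (j : ℕ) := by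
        funext i j
        exact if_pos hcase
      have hc := ext_cond P n
      rw [hr] at hc
      rw [hE]
      refine ⟨fun S hS => ?_, ?_⟩
      · rw [weight_eq]
        refine hc _ ?_ (by rw [card_map]; exact hS)
        rw [← map_univ_eq]
        exact map_subset_map.2 (subset_univ _)
      · rw [weight_eq, map_univ_eq, ext_total P hn]
        unfold value
        rw [max_eq_left hcase]
        unfold gain1
        ring
    · have hE : extremal n k r m =
          fun i j : Fin n => ext2 m n (ss k r m) (cc k r m) (i : ℕ) (j : ℕ) := by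
        funext i j
        exact if_neg hcase
      have hc := ext2_cond P hn
      rw [hr] at hc
      rw [hE]
      refine ⟨fun S hS => ?_, ?_⟩
      · rw [weight_eq]
        refine hc _ ?_ (by rw [card_map]; exact hS)
        rw [← map_univ_eq]
        exact map_subset_map.2 (subset_univ _)
      · rw [weight_eq, map_univ_eq, ext2_total P hn]
        unfold value
        rw [max_eq_right (le_of_not_ge hcase)]
        unfold gain2
        ring
  refine ⟨?_, fun n k hk hn r m hm => ⟨hlow n k hk hn r m hm,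
    ⟨extremal n k r m, hlow n k hk hn r m hm⟩, ?_⟩⟩
  · intro k hk r
    obtain ⟨m, hm⟩ := exists_greatest hk r
    obtain ⟨h1, h2, h3⟩ := greatest_par hk hm
    obtain ⟨P, hr, hs⟩ := par_greatest hk hm
    exact ⟨m, hm, h1, hr, hs⟩
  · rintro t ⟨w, hw, rfl⟩
    obtain ⟨w', hsymm, hw'⟩ := exists_symm w
    obtain ⟨P, hr, hs⟩ := par_greatest hk hm
    have hcond : Cond k (R m k + ss k r m) w' (range n) := by
      rw [hr]
      intro S hS hSk
      obtain ⟨S', rfl⟩ := exists_map hS
      rw [hw']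
      exact hw S' (by rw [← hSk, card_map])
    have hW : W w' (range n) = weight w univ := by rw [← map_univ_eq, hw']
    have h1 := upper_fin hsymm P (V := range n) (by rw [card_range]; exact hn) hcond
    unfold ex at h1
    rw [card_range, hW] at h1
    unfold value
    have h2 : exB (ss k r m) (cc k r m) (bb k r m) (rr k r m) (Nq m.den n) =
        max (gain1 n k r m) (gain2 n k r m) := rfl
    rw [h2] at h1
    linarith

end Pool.Agent.Results.MP_56507e_co.ExactAll
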